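import Pool.Agent.H34.CGS.Stmts

/-!
Row ROT: rotation of a word.
-/

set_option autoImplicit false

noncomputable section

namespace Pool.CGS

open Pool.CGR

theorem rot_thm (h1 : DVCStmt) : ROTStmt := by
  intro α A _ _ _ τ hτ x i a u v
  obtain ⟨-, -, h, -⟩ := h1 α A x i a
  rw [h u v, h v u, map_add, map_add, hτ (dv x i a u), hτ (ev x u), add_comm]

end Pool.CGS
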